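import Pool.Agent.H141R3.JohnTop

set_option autoImplicit false

namespace Pool.Agent.Results.MP_70096d_gt.Counterexample

open Pool.Agent.H141R3.Scott

/-- There is a well-filtered dcpo `P` (some topology compatible with its order is well-filtered)
such that for every nonempty poset `Q` (in particular for every well-filtered dcpo `Q`, for
instance `Q = P`) the Scott topology of `P × Q` is not well-filtered. -/
theorem result : ∃ (P : Type) (_ : PartialOrder P), IsDcpo P ∧ WellFilteredPoset P ∧
    ∀ (Q : Type) [PartialOrder Q] [Nonempty Q], ¬ WellFiltered (scottTopology (P × Q)) :=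
  ⟨JT, inferInstance, JT.isDcpo, JT.wellFilteredPoset, fun Q _ _ h =>
    JT.not_wellFiltered (wellFiltered_left (Classical.arbitrary Q) h)⟩

end Pool.Agent.Results.MP_70096d_gt.Counterexample
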