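import Pool.Agent.H141R3.Scott

set_option autoImplicit false

namespace Pool.Agent.Results.MP_70096d_gt.ScottProduct

open Pool.Agent.H141R3.Scott

/-- For nonempty posets `P`, `Q` (in particular for dcpos), the Scott topology of `P × Q` is
well-filtered if and only if the Scott topologies of `P` and of `Q` are well-filtered. -/
theorem result (P Q : Type*) [PartialOrder P] [PartialOrder Q] [Nonempty P] [Nonempty Q] :
    WellFiltered (scottTopology (P × Q)) ↔
      WellFiltered (scottTopology P) ∧ WellFiltered (scottTopology Q) :=
  ⟨fun h => ⟨wellFiltered_left (Classical.arbitrary Q) h,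
    wellFiltered_right (Classical.arbitrary P) h⟩, fun h => prod_wellFiltered h.1 h.2⟩

end Pool.Agent.Results.MP_70096d_gt.ScottProduct
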